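import Pool.Agent.H14.PNF.S6
import Pool.Agent.H70.NF.EXDN
import Pool.Agent.H85.NF.PRZ

/-!
# PNF, row EXZN: existence of data of trace zero
-/

set_option autoImplicit false

namespace Pool.PNF

open Polynomial NumberField IsDedekindDomain Pool.HYP Pool.TOW Pool.AVS Pool.T1 Pool.NF Pool.PRK

/-- A cubic polynomial without roots and with trace zero over a finite field: the map
`(b, r) ↦ (b, - r³ - b r)` is not injective, so it is not surjective. -/
theorem exCub80 (k : Type) [Field k] [Finite k] :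
    ∃ p : k[X], p.Monic ∧ Irreducible p ∧ p.natDegree = 3 ∧ p.coeff 2 = 0 := by
  have h1 : ¬ Function.Injective (fun x : k × k => (x.1, - x.2 ^ 3 - x.1 * x.2)) := by
    intro h
    have h2 := @h (-1, 0) (-1, 1) (by simp)
    rw [Prod.mk.injEq] at h2
    exact zero_ne_one h2.2
  have h3 : ¬ Function.Surjective (fun x : k × k => (x.1, - x.2 ^ 3 - x.1 * x.2)) :=
    fun h => h1 (Finite.injective_iff_surjective.mpr h)
  rw [Function.Surjective] at h3
  push Not at h3
  obtain ⟨⟨b, c⟩, hbc⟩ := h3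
  have hm : (X ^ 3 + C b * X + C c : k[X]).Monic := by monicity!
  have hd : (X ^ 3 + C b * X + C c : k[X]).natDegree = 3 := by compute_degree!
  refine ⟨X ^ 3 + C b * X + C c, hm, ?_, hd, ?_⟩
  · apply irreducible_of_degree_le_three_of_not_isRoot
    · rw [hd]
      decide
    · intro r hr
      apply hbc (b, r)
      have h4 : r ^ 3 + b * r + c = 0 := by
        have := hr
        simp only [IsRoot.def, eval_add, eval_mul, eval_pow, eval_X, eval_C] at this
        exact this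
      rw [Prod.mk.injEq]
      exact ⟨rfl, by linear_combination -h4⟩
  · simp

/-- A monic lift. -/
theorem exLiftCub80 {R : Type} [CommRing R] [IsDedekindDomain R]
    (hfin : ∀ I : Ideal R, I ≠ ⊥ → Finite (R ⧸ I)) (P : HeightOneSpectrum R) :
    ∃ γ : R[X], OkP 3 P.asIdeal γ ∧ γ.coeff 2 ∈ P.asIdeal := by
  have hm : P.asIdeal.IsMaximal := P.isMaximal
  have hf : Finite (R ⧸ P.asIdeal) := hfin P.asIdeal P.ne_bot
  let _ : Field (R ⧸ P.asIdeal) := Ideal.Quotient.field P.asIdeal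
  obtain ⟨p, h3, h4, h5, h6'⟩ := exCub80 (R ⧸ P.asIdeal)
  have h6 : p ∈ lifts (Ideal.Quotient.mk P.asIdeal) := by
    rw [lifts_iff_coeff_lifts]
    intro i
    exact Ideal.Quotient.mk_surjective _
  obtain ⟨q, h7, h8, h9⟩ := lifts_and_natDegree_eq_and_monic h6 h3
  refine ⟨q, ⟨h9, by rw [h8, h5], ?_⟩, ?_⟩
  · change Irreducible (q.map (Ideal.Quotient.mk P.asIdeal))
    rw [h7]
    exact h4
  · rw [← Ideal.Quotient.eq_zero_iff_mem, ← coeff_map, h7]
    exact h6'

/-- **EXZN.** -/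
theorem exzn : EXZNStmt := by
  classical
  intro K _ _ T' hT' k b
  have hρ : ∀ P : HeightOneSpectrum (𝓞 K), ∃ γ : (𝓞 K)[X], OkP 3 P.asIdeal γ ∧
      γ.coeff 2 ∈ P.asIdeal := fun P => exLiftCub80 (EXDN70.fin_quot K) P
  choose ρ hρ1 hρ2 using hρ
  obtain ⟨D, hD, hDT', hc, hb⟩ := exdn prz K T' hT' k b
  refine ⟨⟨D.T, T', fun P => (D.γ P).coeff 1, D.γ, ρ⟩, ⟨?_, hD.2.1, fun P _ => hρ1 P, hT'⟩, rfl,
    hc, hb, fun P hP => ?_, fun P hP => hρ2 P⟩
  · have h := hD.1
    rw [hDT'] at h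
    exact h
  · have h7 := (hD.2.1 P hP).2.1
    have h8 : (D.γ P).coeff 2 = 1 := by
      rw [← h7]
      exact (hD.2.1 P hP).1
    change ((X - C ((D.γ P).coeff 1)) * D.γ P).coeff 2 ∈ P.asIdeal
    rw [sub_mul, coeff_sub, show (2 : ℕ) = 1 + 1 from rfl, coeff_X_mul, coeff_C_mul,
      show (1 + 1 : ℕ) = 2 from rfl, h8, mul_one, sub_self]
    exact P.asIdeal.zero_mem

end Pool.PNF
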