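import Pool.Agent.H14.PNF.S6
import Pool.Agent.H29.NF.MAINN
import Pool.Agent.H52.PRK.FINZ

/-!
# PNF, row FINZN: twists with trivial 2-Selmer group have finitely many points
-/

set_option autoImplicit false

namespace Pool.PNF

open Polynomial Matrix NumberField IsDedekindDomain Pool.HYP Pool.TOW Pool.AVS Pool.T1 Pool.NF
  Pool.PRK

/-- **FINZN.** -/
theorem finzn : FINZNStmt := by
  intro hSLN hIRR K _ _ D Y hD hY f hf d hd
  have hinj : Function.Injective (algebraMap (𝓞 K) K) := IsFractionRing.injective (𝓞 K) K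
  have hm : f.Monic := hf.1
  have hn : f.natDegree = 3 := hf.2.1
  have hirr : Irreducible (fk K (f.scaleRoots d)) := irr_scale hd hm (hIRR K D Y hD f hf)
  refine ⟨hirr, fun hs => ?_⟩
  rw [hSLN K D Y hD hY f hf d hd] at hs
  have hsel := Pool.PRK.FinzAux.selK_of_ncard hs
  have hm' : (f.scaleRoots d).Monic := (monic_scaleRoots_iff d).2 hm
  refine finOdd_of (hm'.map _) ?_ hirr hsel
  rw [fk, hm'.natDegree_map, natDegree_scaleRoots, hn]

end Pool.PNF
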