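import Pool.Agent.H41.PNF.Cnt

/-!
# PNF, row YAUX: the auxiliary element
-/

set_option autoImplicit false

namespace Pool.PNF

open Polynomial Matrix NumberField IsDedekindDomain Pool.HYP Pool.TOW Pool.AVS Pool.T1 Pool.NF
  Pool.PRK

theorem coprime_primes80 {R : Type} [CommRing R] [IsDedekindDomain R]
    {P Q : HeightOneSpectrum R} (h : P ≠ Q) : IsCoprime P.asIdeal Q.asIdeal := by
  have h1 := P.isMaximal
  have h2 := Q.isMaximal
  exact Ideal.isCoprime_of_isMaximal fun e => h (HeightOneSpectrum.ext e)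

open Classical in
theorem mem_mul80 {R : Type} [CommRing R] [IsDedekindDomain R] (W : Finset (HeightOneSpectrum R))
    (d : R) (hd : d ∈ ∏ P ∈ W, P.asIdeal) (P : HeightOneSpectrum R)
    (h1 : P ∈ W → d ∈ P.asIdeal ^ 2) (h2 : P ∉ W → d ∈ P.asIdeal) :
    d ∈ P.asIdeal * ∏ Q ∈ W, Q.asIdeal := by
  by_cases hP : P ∈ W
  · have hW : ∏ Q ∈ W, Q.asIdeal = P.asIdeal * ∏ Q ∈ W.erase P, Q.asIdeal :=
      (Finset.mul_prod_erase W (fun Q : HeightOneSpectrum R => Q.asIdeal) hP).symm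
    have hc : IsCoprime (P.asIdeal ^ 2) (∏ Q ∈ W.erase P, Q.asIdeal) := by
      apply IsCoprime.pow_left
      apply IsCoprime.prod_right
      intro Q hQ
      exact coprime_primes80 (Finset.ne_of_mem_erase hQ).symm
    rw [hW, ← mul_assoc, ← pow_two, Ideal.mul_eq_inf_of_isCoprime hc]
    refine ⟨h1 hP, ?_⟩
    rw [hW] at hd
    exact Ideal.mul_le_right hd
  · have hc : IsCoprime P.asIdeal (∏ Q ∈ W, Q.asIdeal) := by
      apply IsCoprime.prod_right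
      intro Q hQ
      exact coprime_primes80 fun e => hP (e ▸ hQ)
    rw [Ideal.mul_eq_inf_of_isCoprime hc]
    exact ⟨h2 hP, hd⟩

/-- The pigeonhole principle: a nonzero element of `I` in a box. -/
theorem pigeon80 (K : Type) [Field K] [NumberField K] (I : Ideal (𝓞 K)) (hI : I ≠ ⊥) (ρ : ℝ)
    (h : (Ni I : ℝ) < ((Bx K ρ).ncard : ℝ)) : ∃ a : 𝓞 K, a ≠ 0 ∧ a ∈ I ∧ a ∈ Bx K (ρ + ρ) := by
  have hfin := Ideal.finiteQuotientOfFreeOfNeBot I hI
  have hlt' : Ni I < (Bx K ρ).ncard := by exact_mod_cast h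
  have h1 : (Set.univ : Set (𝓞 K ⧸ I)).ncard < (Bx K ρ).ncard := by
    rw [Set.ncard_univ]
    exact hlt'
  obtain ⟨u, hu, v, hv, huv, he⟩ := Set.exists_ne_map_eq_of_ncard_lt_of_maps_to
    (f := fun x : 𝓞 K => Ideal.Quotient.mk I x) h1 (fun _ _ => Set.mem_univ _) Set.finite_univ
  refine ⟨u - v, sub_ne_zero.mpr huv, Ideal.Quotient.eq.mp he, fun σ => ?_⟩
  have e : ((u - v : 𝓞 K) : K) = (u : K) - (v : K) := by simp
  rw [e, map_sub]
  exact (norm_sub_le _ _).trans (add_le_add (hu σ) (hv σ))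

theorem ni_prod80 (K : Type) [Field K] [NumberField K] (W : Finset (HeightOneSpectrum (𝓞 K))) :
    Ni (∏ P ∈ W, P.asIdeal) = ∏ P ∈ W, Nm P := by
  have e : ∀ J : Ideal (𝓞 K), Ni J = Ideal.absNorm J := fun J => by
    unfold Ni
    rw [Ideal.absNorm_apply, Submodule.cardQuot_apply]
  rw [e, map_prod]
  refine Finset.prod_congr rfl fun P _ => ?_
  rw [← e]
  rfl

theorem ni_mul80 (K : Type) [Field K] [NumberField K] (I J : Ideal (𝓞 K)) :
    Ni (I * J) = Ni I * Ni J := by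
  have e : ∀ J : Ideal (𝓞 K), Ni J = Ideal.absNorm J := fun J => by
    unfold Ni
    rw [Ideal.absNorm_apply, Submodule.cardQuot_apply]
  rw [e, e, e, map_mul]

theorem const80 (c : ℝ) (hc : 0 < c) (n : ℕ) (hn : n ≠ 0) :
    ∃ a : ℝ, 2 ≤ a ∧ (∀ N : ℝ, 1 ≤ N → N < c * (a * N)) ∧ a ^ ((n : ℝ)⁻¹) ≤ a ∧
      (2 : ℝ) ≤ 2 ^ n := by
  refine ⟨max 2 (2 / c), le_max_left _ _, ?_, ?_, ?_⟩
  · intro N hN
    have h1 : 2 ≤ c * max 2 (2 / c) := by
      have : c * (2 / c) = 2 := by field_simp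
      calc (2 : ℝ) = c * (2 / c) := this.symm
        _ ≤ c * max 2 (2 / c) := mul_le_mul_of_nonneg_left (le_max_right _ _) hc.le
    calc N < 2 * N := by linarith
      _ ≤ (c * max 2 (2 / c)) * N := mul_le_mul_of_nonneg_right h1 (by linarith)
      _ = c * (max 2 (2 / c) * N) := by ring
  · have h1 : (1 : ℝ) ≤ max 2 (2 / c) := le_trans (by norm_num) (le_max_left _ _)
    calc (max 2 (2 / c)) ^ ((n : ℝ)⁻¹) ≤ (max 2 (2 / c)) ^ (1 : ℝ) := by
          apply Real.rpow_le_rpow_of_exponent_le h1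
          apply inv_le_one_of_one_le₀
          exact_mod_cast Nat.one_le_iff_ne_zero.mpr hn
      _ = max 2 (2 / c) := Real.rpow_one _
  · calc (2 : ℝ) = 2 ^ 1 := (pow_one _).symm
      _ ≤ 2 ^ n := pow_le_pow_right₀ (by norm_num) (Nat.one_le_iff_ne_zero.mpr hn)

/-- **YAUX.** -/
theorem yaux : YAUXStmt := by
  intro bxl nrm K _ _
  obtain ⟨c, hc, hbox, -⟩ := bxl K
  have hn : dg K ≠ 0 := Module.finrank_pos.ne'
  obtain ⟨a, ha2, haN, ha3, h2n⟩ := const80 c hc (dg K) hn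
  have ha0 : 0 ≤ a := by linarith
  refine ⟨2 ^ dg K * a, ?_, ?_⟩
  · calc (1 : ℝ) ≤ 2 * 2 := by norm_num
      _ ≤ 2 ^ dg K * a := mul_le_mul h2n ha2 (by norm_num) (by positivity)
  intro T y hT
  obtain ⟨W, hW⟩ : ∃ W, W = odd T y := ⟨_, rfl⟩
  obtain ⟨I, hI⟩ : ∃ I : Ideal (𝓞 K), I = ∏ P ∈ W, P.asIdeal := ⟨_, rfl⟩
  have hI0 : I ≠ ⊥ := by
    rw [hI]
    change _ ≠ 0
    exact Finset.prod_ne_zero_iff.mpr fun P _ => P.ne_bot
  obtain ⟨N, hN⟩ : ∃ N : ℝ, N = ((∏ P ∈ W, Nm P : ℕ) : ℝ) := ⟨_, rfl⟩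
  have hNI : (Ni I : ℝ) = N := by rw [hN, hI, ni_prod80]
  have hN1 : 1 ≤ N := by
    rw [← hNI]
    have hfin := Ideal.finiteQuotientOfFreeOfNeBot I hI0
    have : 0 < Ni I := Nat.card_pos
    exact_mod_cast this
  have hN0 : 0 ≤ N := by linarith
  obtain ⟨ρ, hρ⟩ : ∃ ρ : ℝ, ρ = (a * N) ^ ((dg K : ℝ)⁻¹) := ⟨_, rfl⟩
  have haN1 : 1 ≤ a * N := by
    calc (1 : ℝ) = 1 * 1 := by norm_num
      _ ≤ a * N := mul_le_mul (by linarith) hN1 (by norm_num) ha0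
  have hρ1 : 1 ≤ ρ := by
    rw [hρ]
    exact Real.one_le_rpow haN1 (by positivity)
  have hρn : ρ ^ dg K = a * N := by
    rw [hρ]
    exact Real.rpow_inv_natCast_pow (by linarith) hn
  have hlt : (Ni I : ℝ) < ((Bx K ρ).ncard : ℝ) := by
    have h1 := hbox ρ hρ1
    rw [hρn] at h1
    rw [hNI]
    exact (haN N hN1).trans_le h1
  obtain ⟨d, hd0, hdI, hdB⟩ := pigeon80 K I hI0 ρ hlt
  have hbad : ∀ P ∈ T, (P ∈ W → d ∈ P.asIdeal ^ 2) → (P ∉ W → d ∈ P.asIdeal) → False := by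
    intro P hP h1 h2
    have h3 : d ∈ P.asIdeal * I := by
      rw [hI]
      rw [hI] at hdI
      exact mem_mul80 W _ hdI P h1 h2
    have h5 := ((nrm K d (ρ + ρ) hdB).2 hd0).2 _ h3
    have h6 : (Ni (P.asIdeal * I) : ℝ) = (Nm P : ℝ) * N := by
      rw [ni_mul80, ← hNI, Nat.cast_mul]
      rfl
    have h7 : (ρ + ρ) ^ dg K = 2 ^ dg K * a * N := by
      have : ρ + ρ = 2 * ρ := by ring
      rw [this, mul_pow, hρn]
      ring
    rw [h6, h7] at h5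
    have h8 := hT P hP
    have h9 : (Nm P : ℝ) ≤ 2 ^ dg K * a := le_of_mul_le_mul_right h5 (by linarith)
    linarith
  refine ⟨d, ⟨hd0, ?_, ?_⟩, ?_⟩
  · intro P hP
    rw [← hW] at hP
    have hPT : P ∈ T := by
      rw [hW] at hP
      exact (Finset.mem_filter.mp hP).1
    refine ⟨?_, fun h => hbad P hPT (fun _ => h) (fun h' => absurd hP h')⟩
    rw [hI] at hdI
    exact (Ideal.prod_le_inf.trans (Finset.inf_le hP)) hdI
  · intro P hPT hP h
    rw [← hW] at hP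
    exact hbad P hPT (fun h' => absurd h' hP) (fun _ => h)
  · unfold dl
    rw [← hW, ← hN]
    have h3 : 0 ≤ N ^ ((dg K : ℝ)⁻¹) := Real.rpow_nonneg hN0 _
    have h4 : ρ + ρ ≤ 2 ^ dg K * a * N ^ ((dg K : ℝ)⁻¹) := by
      calc ρ + ρ = 2 * (a ^ ((dg K : ℝ)⁻¹) * N ^ ((dg K : ℝ)⁻¹)) := by
            rw [hρ, Real.mul_rpow ha0 hN0]
            ring
        _ ≤ 2 * (a * N ^ ((dg K : ℝ)⁻¹)) := by
            apply mul_le_mul_of_nonneg_left _ (by norm_num)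
            exact mul_le_mul_of_nonneg_right ha3 h3
        _ ≤ 2 ^ dg K * (a * N ^ ((dg K : ℝ)⁻¹)) :=
            mul_le_mul_of_nonneg_right h2n (mul_nonneg ha0 h3)
        _ = 2 ^ dg K * a * N ^ ((dg K : ℝ)⁻¹) := by ring
    exact fun σ => (hdB σ).trans h4

end Pool.PNF
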