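import Pool.Agent.H14.PNF.S6
import Pool.Agent.H71.T1.TWJK

/-!
# PNF, row ZINN: the pairs `(f, S)` are determined by the twist
-/

set_option autoImplicit false

namespace Pool.PNF

open Polynomial Matrix NumberField IsDedekindDomain Pool.HYP Pool.TOW Pool.AVS Pool.T1 Pool.NF
  Pool.PRK

theorem zinn_sub {K : Type} [Field K] [NumberField K] {D : DatN K} {Y : ℕ} (hD : D.Ok)
    {dS : Finset (HeightOneSpectrum (𝓞 K)) → 𝓞 K} (hdS : TwsN D dS)
    {S S' : Finset (HeightOneSpectrum (𝓞 K))} (hS : S ⊆ D.T) (hS' : S' ⊆ D.T)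
    {f f' : (𝓞 K)[X]} (hf : f ∈ FamN D Y) (hf' : f' ∈ FamN D Y)
    (he : f.scaleRoots (dS S) = f'.scaleRoots (dS S')) : S ⊆ S' := by
  intro P hP
  by_contra hP'
  have hPT := hS hP
  have hd : dS S ∈ P.asIdeal := ((hdS S hS).1.2.1 P hP).1
  have hd' : dS S' ∉ P.asIdeal := (hdS S' hS').1.2.2.1 P hPT hP'
  have hmon : f.Monic := hf.1
  have hdeg : f.natDegree = 3 := hf.2.1
  have hmon' : f'.Monic := hf'.1
  have hdeg' : f'.natDegree = 3 := hf'.2.1
  have h1 : ∀ i, i < 3 → f'.coeff i ∈ P.asIdeal := by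
    intro i hi
    have h2 : (f'.scaleRoots (dS S')).coeff i ∈ P.asIdeal := by
      rw [← he, coeff_scaleRoots, hdeg]
      refine Ideal.mul_mem_left _ _ ?_
      have h3 : 3 - i = (3 - i - 1) + 1 := by omega
      rw [h3, pow_succ]
      exact Ideal.mul_mem_left _ _ hd
    rw [coeff_scaleRoots, hdeg'] at h2
    rcases P.isPrime.mem_or_mem h2 with h4 | h4
    · exact h4
    · exact absurd (P.isPrime.mem_of_pow_mem _ h4) hd'
  have h5 : md P.asIdeal f' = X ^ 3 := by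
    ext i
    rw [coeff_map, coeff_X_pow]
    split_ifs with h6
    · rw [h6, ← hdeg', hmon'.coeff_natDegree, map_one]
    · rcases lt_or_gt_of_ne h6 with h7 | h7
      · exact Ideal.Quotient.eq_zero_iff_mem.2 (h1 i h7)
      · rw [coeff_eq_zero_of_natDegree_lt (by omega), map_zero]
  have h8 : md P.asIdeal f' = md P.asIdeal ((X - C (D.c P)) * D.γ P) := by
    have h9 := hf'.2.2.2.1 P hPT
    rw [← sub_eq_zero, ← Polynomial.map_sub]
    ext i
    rw [coeff_map, coeff_zero]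
    exact Ideal.Quotient.eq_zero_iff_mem.2 (h9 i)
  have hPm := P.isMaximal
  let _ : Field (𝓞 K ⧸ P.asIdeal) := Ideal.Quotient.field P.asIdeal
  obtain ⟨hγ1, hγ2, hγ3⟩ := hD.2.1 P hPT
  have h10 : md P.asIdeal (D.γ P) ∣ X ^ 3 := by
    have h10' : md P.asIdeal ((X - C (D.c P)) * D.γ P) =
        md P.asIdeal (X - C (D.c P)) * md P.asIdeal (D.γ P) := Polynomial.map_mul _
    rw [← h5, h8, h10']
    exact Dvd.intro_left _ rfl
  have h11 : md P.asIdeal (D.γ P) ∣ X := hγ3.prime.dvd_of_dvd_pow h10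
  have h12 := natDegree_le_of_dvd h11 X_ne_zero
  rw [hγ1.natDegree_map, hγ2, natDegree_X] at h12
  omega

/-- **ZINN.** -/
theorem zinn : ZINNStmt := by
  classical
  intro K _ _ D Y hD dS hdS
  have hinj : Function.Injective (algebraMap (𝓞 K) K) := IsFractionRing.injective (𝓞 K) K
  have hmain : ∀ S ⊆ D.T, ∀ S' ⊆ D.T, ∀ f ∈ FamN D Y, ∀ f' ∈ FamN D Y,
      fk K (f.scaleRoots (dS S)) = fk K (f'.scaleRoots (dS S')) → S = S' ∧ f = f' := by
    intro S hS S' hS' f hf f' hf' he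
    have he' : f.scaleRoots (dS S) = f'.scaleRoots (dS S') := map_injective _ hinj he
    have h1 : S = S' := Finset.Subset.antisymm (zinn_sub hD hdS hS hS' hf hf' he')
      (zinn_sub hD hdS hS' hS hf' hf he'.symm)
    subst h1
    exact ⟨rfl, twjk (𝓞 K) (dS S) (hdS S hS).1.1 he'⟩
  refine ⟨hmain, ?_⟩
  intro A hA hfin
  have hSl : ∀ S ∈ Sl D.T, S ⊆ D.T := fun S hS =>
    Finset.mem_powerset.1 (Finset.mem_filter.1 hS).1
  have h1 : ZAN D dS A = (fun p : Finset (HeightOneSpectrum (𝓞 K)) × (𝓞 K)[X] =>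
      fk K (p.2.scaleRoots (dS p.1))) ''
        ((Sl D.T : Set (Finset (HeightOneSpectrum (𝓞 K)))) ×ˢ A) := by
    ext q
    constructor
    · rintro ⟨f, hf, S, hS, rfl⟩
      exact ⟨(S, f), ⟨hS, hf⟩, rfl⟩
    · rintro ⟨⟨S, f⟩, ⟨hS, hf⟩, rfl⟩
      exact ⟨f, hf, S, hS, rfl⟩
  have h2 : ((Sl D.T : Set (Finset (HeightOneSpectrum (𝓞 K)))) ×ˢ A).Finite :=
    (Finset.finite_toSet _).prod hfin
  refine ⟨h1 ▸ h2.image _, ?_⟩
  rw [h1, Set.InjOn.ncard_image, Set.ncard_prod, Set.ncard_coe_finset]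
  rintro ⟨S, f⟩ ⟨hS, hf⟩ ⟨S', f'⟩ ⟨hS', hf'⟩ he
  obtain ⟨h3, h4⟩ := hmain S (hSl S hS) S' (hSl S' hS') f (hA hf) f' (hA hf') he
  rw [h3, h4]

end Pool.PNF
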